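import Pool.Agent.H3.BoolRing

set_option autoImplicit false

namespace Pool.Agent.Results.MP_3e7e0d_al.PerpDim

open CategoryTheory CategoryTheory.Abelian

/-- The class of modules `M` with `Ext^i(M, P) = 0` for all `i ≥ 1` and all projective `P`. -/
def InPerp {R : Type} [Ring R] (M : ModuleCat.{0} R) : Prop :=
  ∀ P : ModuleCat.{0} R, Projective P → ∀ i : ℕ, 1 ≤ i → Subsingleton (Ext.{0} M P i)

/-- There is an exact sequence `0 → T n → ⋯ → T 1 → T 0 → A → 0` with all `T i` in the
class `InPerp` (we put `T i = 0` for `i > n`). -/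
def HasPerpResolution {R : Type} [Ring R] (A : ModuleCat.{0} R) (n : ℕ) : Prop :=
  ∃ (T : ℕ → ModuleCat.{0} R) (d : ∀ i, T (i + 1) →ₗ[R] T i) (ε : T 0 →ₗ[R] A),
    (∀ i, InPerp (T i)) ∧ (∀ i, n < i → Subsingleton (T i)) ∧
    Function.Surjective ε ∧ Function.Exact (d 0) ε ∧ ∀ i, Function.Exact (d (i + 1)) (d i)

/-- The least length of a resolution by modules in `InPerp`, and `⊤` if there is none. -/
noncomputable def perpDim {R : Type} [Ring R] (A : ModuleCat.{0} R) : ℕ∞ :=
  ⨅ (n : ℕ) (_ : HasPerpResolution A n), (n : ℕ∞)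

section General

theorem perpDim_eq_zero {R : Type} [Ring R] (A : ModuleCat.{0} R) (h : InPerp A) :
    perpDim A = 0 := by
  have h0 : HasPerpResolution A 0 := by
    refine ⟨fun i => match i with
      | 0 => A
      | _ + 1 => ModuleCat.of R PUnit, fun _ => 0, LinearMap.id, ?_, ?_, ?_, ?_, ?_⟩
    · intro i
      match i with
      | 0 => exact h
      | j + 1 =>
        intro P _ k _
        have hz : Limits.IsZero (ModuleCat.of R PUnit) := ModuleCat.isZero_of_subsingleton _
        have := hz.hasProjectiveDimensionLT_zero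
        exact HasProjectiveDimensionLT.subsingleton _ 0 k (Nat.zero_le _) P
    · intro i hi
      match i with
      | 0 => exact absurd hi (lt_irrefl 0)
      | j + 1 => exact inferInstanceAs (Subsingleton PUnit)
    · exact Function.surjective_id
    · intro y
      constructor
      · intro hy
        exact ⟨0, hy.symm⟩
      · rintro ⟨x, rfl⟩
        rfl
    · intro i y
      constructor
      · intro _
        exact ⟨0, Subsingleton.elim (α := PUnit) _ _⟩
      · intro _
        rfl
  apply le_antisymm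
  · refine (iInf₂_le 0 h0).trans ?_
    simp
  · exact bot_le

theorem not_hasProjectiveDimensionLT {R : Type} [Ring R] (A : ModuleCat.{0} R) (h : InPerp A)
    (hA : ¬ Projective A) (n : ℕ) : ¬ HasProjectiveDimensionLT A (n + 1) := by
  induction n with
  | zero =>
    intro hn
    exact hA (projective_iff_hasProjectiveDimensionLT_one.mpr hn)
  | succ n ih =>
    intro hn
    apply ih
    rw [hasProjectiveDimensionLT_iff.{0}]
    intro i hi Y x
    let p := EnoughProjectives.presentation Y
    obtain ⟨p⟩ := p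
    have hS : (ShortComplex.mk _ _ (Limits.kernel.condition p.f)).ShortExact :=
      { exact := ShortComplex.exact_kernel p.f }
    obtain ⟨y, rfl⟩ := Ext.covariant_sequence_exact₃ A hS x (rfl : i + 1 = i + 1)
      (Ext.eq_zero_of_hasProjectiveDimensionLT _ (n + 1 + 1) (by omega))
    have := h p.p p.projective i (by omega)
    rw [Subsingleton.elim y 0, Ext.zero_comp]

theorem ext_one {R : Type} [Ring R] {S : ShortComplex (ModuleCat.{0} R)} (hS : S.ShortExact)
    (hP : Projective S.X₂) (N : ModuleCat.{0} R)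
    (h : ∀ φ : S.X₁ ⟶ N, ∃ ψ : S.X₂ ⟶ N, φ = S.f ≫ ψ) (x : Ext.{0} S.X₃ N 1) : x = 0 := by
  obtain ⟨y, rfl⟩ := Ext.contravariant_sequence_exact₃ hS N x
    (Ext.eq_zero_of_projective _) (rfl : 1 + 0 = 1)
  obtain ⟨φ, rfl⟩ := Ext.homEquiv₀.symm.surjective y
  obtain ⟨ψ, rfl⟩ := h φ
  rw [Ext.homEquiv₀_symm_apply, ← Ext.mk₀_comp_mk₀]
  exact hS.extClass_comp_assoc _

theorem ext_succ {R : Type} [Ring R] {S : ShortComplex (ModuleCat.{0} R)} (hS : S.ShortExact)
    (hP : Projective S.X₂) (N : ModuleCat.{0} R) (j : ℕ)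
    (h : ∀ y : Ext.{0} S.X₁ N (j + 1), y = 0) (x : Ext.{0} S.X₃ N (j + 1 + 1)) : x = 0 := by
  obtain ⟨y, rfl⟩ := Ext.contravariant_sequence_exact₃ hS N x
    (Ext.eq_zero_of_projective _) (add_comm 1 (j + 1))
  rw [h y, Ext.comp_zero]

end General

section Example

open Pool.Agent.H3.Cochain Pool.Agent.H3.Resol Pool.Agent.H3.BoolRing

variable {X : Type}

/-- The extension property, for arbitrary projective targets. -/
theorem extend (hX : Cardinal.aleph Ordinal.omega0 ≤ Cardinal.mk X) (n : ℕ) (N : Type)
    [AddCommGroup N]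
    [Module (BR X) N] (hN : Module.Projective (BR X) N) (f : K (e (X := X)) (n + 1) →ₗ[BR X] N) :
    ∃ g : (List X →₀ BR X) →ₗ[BR X] N, ∀ z : K (e (X := X)) (n + 1), g z.1 = f z := by
  obtain ⟨s, hs⟩ := Module.projective_def.mp hN
  obtain ⟨g, hg⟩ := extend_of_support (support (X := X) N) n
    (le_trans (Cardinal.aleph_le_aleph.mpr (Ordinal.natCast_lt_omega0 _).le) hX) (s ∘ₗ f)
  refine ⟨Finsupp.linearCombination (BR X) id ∘ₗ g, fun z => ?_⟩
  rw [LinearMap.comp_apply, hg z, LinearMap.comp_apply]
  exact hs (f z)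

variable (X) in
/-- The syzygies. -/
noncomputable def Q : ℕ → ModuleCat.{0} (BR X)
  | 0 => ModuleCat.of (BR X) (A X)
  | n + 1 => ModuleCat.of (BR X) (K (e (X := X)) (n + 1))

theorem idem (x : X) : e x * e x = e x := mul_self' _

variable (X) in
/-- The augmentation. -/
noncomputable def aug : P (e (X := X)) 0 →ₗ[BR X] A X :=
  (Submodule.mkQ (m X)) ∘ₗ (Finsupp.lapply [] : (List X →₀ BR X) →ₗ[BR X] BR X) ∘ₗ
    (P (e (X := X)) 0).subtype

variable (X) in
/-- The differential onto its image. -/
noncomputable def dd (n : ℕ) : P (e (X := X)) n →ₗ[BR X] K (e (X := X)) n :=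
  (d X (BR X)).restrict (p := P (e (X := X)) n) (q := K (e (X := X)) n) fun q hq => ⟨q, hq, rfl⟩

variable (X) in
/-- The inclusion of the next syzygy. -/
noncomputable def inc (n : ℕ) : K (e (X := X)) (n + 1) →ₗ[BR X] P (e (X := X)) n :=
  Submodule.inclusion (K_le idem n)

variable (X) in
/-- The map onto the syzygy. -/
noncomputable def onto : (n : ℕ) → (ModuleCat.of (BR X) (P (e (X := X)) n) ⟶ Q X n)
  | 0 => ModuleCat.ofHom (aug X)
  | n + 1 => ModuleCat.ofHom (dd X (n + 1))

theorem exactness (n : ℕ) : Function.Exact (inc X n) (onto X n) := by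
  cases n with
  | zero =>
    intro z
    change (aug X) z = 0 ↔ _
    have h1 : (aug X) z = 0 ↔ z.1 [] ∈ m X := by
      change Submodule.mkQ (m X) (z.1 []) = 0 ↔ _
      rw [Submodule.mkQ_apply, Submodule.Quotient.mk_eq_zero]
    rw [h1]
    constructor
    · intro h
      exact ⟨⟨z.1, exact_zero idem z.1 z.2 h⟩, rfl⟩
    · rintro ⟨w, rfl⟩
      exact exact_zero' w.1 w.2
  | succ n =>
    intro z
    change (dd X (n + 1)) z = 0 ↔ _
    constructor
    · intro h
      exact ⟨⟨z.1, exact_pos idem z.1 z.2 (congrArg Subtype.val h)⟩, rfl⟩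
    · rintro ⟨⟨_, p, hp, rfl⟩, rfl⟩
      apply Subtype.ext
      exact d_d p

theorem onto_surjective (n : ℕ) : Function.Surjective (onto X n) := by
  cases n with
  | zero =>
    intro a
    obtain ⟨r, rfl⟩ := Submodule.mkQ_surjective (m X) a
    refine ⟨⟨Finsupp.single [] r, ?_⟩, ?_⟩
    · have := single_mem_P (e := e (X := X)) idem [] r
      simpa using this
    · change Submodule.mkQ (m X) ((Finsupp.single [] r : List X →₀ BR X) []) = _
      rw [Finsupp.single_eq_same]
  | succ n =>
    rintro ⟨_, p, hp, rfl⟩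
    exact ⟨⟨p, hp⟩, rfl⟩

variable (X) in
/-- The short exact sequences. -/
noncomputable def S (n : ℕ) : ShortComplex (ModuleCat.{0} (BR X)) where
  X₁ := Q X (n + 1)
  X₂ := ModuleCat.of (BR X) (P (e (X := X)) n)
  X₃ := Q X n
  f := ModuleCat.ofHom (inc X n)
  g := onto X n
  zero := by
    ext z
    exact (exactness n _).mpr ⟨z, rfl⟩

theorem S_shortExact (n : ℕ) : (S X n).ShortExact := by
  apply ModuleCat.shortComplex_shortExact
  · exact exactness n
  · exact Submodule.inclusion_injective (K_le idem n)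
  · exact onto_surjective n

theorem ext_zero (hX : Cardinal.aleph Ordinal.omega0 ≤ Cardinal.mk X) (N : ModuleCat.{0} (BR X))
    (hN : Projective N) (j : ℕ) : ∀ (n : ℕ) (x : Ext.{0} (Q X n) N (j + 1)), x = 0 := by
  induction j with
  | zero =>
    intro n x
    have hP : Projective (S X n).X₂ :=
      (IsProjective.iff_projective (R := BR X) _).mp (projective_P idem n)
    refine ext_one (S_shortExact n) hP N ?_ x
    intro φ
    have hN' : Module.Projective (BR X) N := (IsProjective.iff_projective N).mpr hN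
    obtain ⟨g, hg⟩ := extend hX n N hN' φ.hom
    refine ⟨ModuleCat.ofHom (g ∘ₗ (P (e (X := X)) n).subtype), ?_⟩
    ext z
    exact (hg z).symm
  | succ j ih =>
    intro n x
    have hP : Projective (S X n).X₂ :=
      (IsProjective.iff_projective (R := BR X) _).mp (projective_P idem n)
    exact ext_succ (S_shortExact n) hP N j (ih (n + 1)) x

theorem inPerp (hX : Cardinal.aleph Ordinal.omega0 ≤ Cardinal.mk X) :
    InPerp (ModuleCat.of (BR X) (A X)) := by
  intro N hN i hi
  obtain ⟨j, rfl⟩ := Nat.exists_eq_add_of_le' hi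
  exact ⟨fun a b => by rw [ext_zero hX N hN j 0 a, ext_zero hX N hN j 0 b]⟩

end Example

/-- There are a commutative (even Boolean) ring `R` and a nonzero injective `R`-module `A` which
lies in the class of modules `M` with `Ext^i(M, P) = 0` for `i ≥ 1` and `P` projective (so its
dimension relative to this class is `0`), but whose projective dimension is infinite. -/
theorem result : ∃ (R : Type) (_ : CommRing R) (A : ModuleCat.{0} R),
    (∀ r : R, r * r = r) ∧ injectiveDimension A = 0 ∧ perpDim A = 0 ∧
      projectiveDimension A = ⊤ := by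
  let X : Type := (Cardinal.aleph Ordinal.omega0).out
  have hX : Cardinal.aleph Ordinal.omega0 ≤ Cardinal.mk X := (Cardinal.mk_out _).ge
  have : Infinite X := by
    rw [Cardinal.infinite_iff]
    exact (Cardinal.aleph0_le_aleph _).trans hX
  have hperp := inPerp hX
  refine ⟨Pool.Agent.H3.BoolRing.BR X, inferInstance,
    ModuleCat.of _ (Pool.Agent.H3.BoolRing.A X), Pool.Agent.H3.BoolRing.mul_self', ?_,
    perpDim_eq_zero _ hperp, ?_⟩
  · apply le_antisymm
    · have h1 : Injective (ModuleCat.of (Pool.Agent.H3.BoolRing.BR X)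
          (Pool.Agent.H3.BoolRing.A X)) :=
        Module.injective_object_of_injective_module _ _ (inj := Pool.Agent.H3.BoolRing.injective)
      have := (injectiveDimension_le_iff (ModuleCat.of (Pool.Agent.H3.BoolRing.BR X)
          (Pool.Agent.H3.BoolRing.A X)) 0).mpr inferInstance
      simpa using this
    · have := (injectiveDimension_ge_iff (ModuleCat.of (Pool.Agent.H3.BoolRing.BR X)
          (Pool.Agent.H3.BoolRing.A X)) 0).mpr fun h => by
        have hz := isZero_of_hasInjectiveDimensionLT_zero (ModuleCat.of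
          (Pool.Agent.H3.BoolRing.BR X) (Pool.Agent.H3.BoolRing.A X))
        have hs : Subsingleton (Pool.Agent.H3.BoolRing.A X) :=
          ModuleCat.subsingleton_of_isZero hz
        have h1 : (1 : Pool.Agent.H3.BoolRing.A X) = 0 := Subsingleton.elim _ _
        rw [← map_one (Ideal.Quotient.mk (Pool.Agent.H3.BoolRing.m X)),
          Ideal.Quotient.eq_zero_iff_mem] at h1
        exact Pool.Agent.H3.BoolRing.one_notMem h1
      simpa using this
  · by_contra hne
    obtain ⟨n, hn⟩ := (projectiveDimension_ne_top_iff _).mp hne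
    refine not_hasProjectiveDimensionLT _ hperp ?_ n hn
    rw [← IsProjective.iff_projective]
    exact Pool.Agent.H3.BoolRing.not_projective

end Pool.Agent.Results.MP_3e7e0d_al.PerpDim
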